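import Mathlib

/-!
MP_d2ef9c_co, Q1: the conjectured limit `αω(T_n) / |T_n| → 2/5` for the triangular grids `T_n` is
false: a periodic pattern made of triangles gives indeque sets of size `(4/9 - o(1)) |T_n|`.
-/

set_option autoImplicit false

namespace Pool.Agent.Results.MP_d2ef9c_co.Density

open Filter Topology

/-- The vertex set `V_n = {(i, j) : i ≥ 0, j ≥ 0, i + j ≤ n}` of the triangular grid `T_n`. -/
noncomputable def verts (n : ℕ) : Finset (ℤ × ℤ) :=
  (Finset.Icc (0 : ℤ) n ×ˢ Finset.Icc (0 : ℤ) n).filter fun p => p.1 + p.2 ≤ n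

/-- Adjacency in the infinite triangular grid. -/
def TriAdj (p q : ℤ × ℤ) : Prop :=
  (p.2 = q.2 ∧ |p.1 - q.1| = 1) ∨ (p.1 = q.1 ∧ |p.2 - q.2| = 1) ∨
    (p.1 - q.1 = 1 ∧ q.2 - p.2 = 1) ∨ (p.1 - q.1 = -1 ∧ q.2 - p.2 = -1)

lemma triAdj_symm {p q : ℤ × ℤ} (h : TriAdj p q) : TriAdj q p := by
  unfold TriAdj at *
  rcases h with h | h | h | h
  · exact Or.inl ⟨h.1.symm, by rw [abs_sub_comm]; exact h.2⟩
  · exact Or.inr (Or.inl ⟨h.1.symm, by rw [abs_sub_comm]; exact h.2⟩)
  · exact Or.inr (Or.inr (Or.inr ⟨by omega, by omega⟩))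
  · exact Or.inr (Or.inr (Or.inl ⟨by omega, by omega⟩))

lemma triAdj_irrefl (p : ℤ × ℤ) : ¬ TriAdj p p := by
  intro h
  unfold TriAdj at h
  rcases h with h | h | h | h
  · simp at h
  · simp at h
  · omega
  · omega

/-- The triangular grid `T_n`. -/
def T (n : ℕ) : SimpleGraph (verts n) where
  Adj p q := TriAdj p.1 q.1
  symm := ⟨fun _ _ h => triAdj_symm h⟩
  loopless := ⟨fun p h => triAdj_irrefl p.1 h⟩

/-- `S` is an indeque set of `G`: every connected component of `G[S]` is a complete graph. -/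
def IsIndeque {V : Type*} (G : SimpleGraph V) (S : Finset V) : Prop :=
  ∀ u v : (S : Set V), (G.induce (S : Set V)).Reachable u v → u ≠ v → G.Adj u v

/-- The indeque number `αω(G)`. -/
noncomputable def indequeNumber {V : Type*} (G : SimpleGraph V) : ℕ :=
  sSup {k | ∃ S : Finset V, IsIndeque G S ∧ S.card = k}

/-! ### The pattern -/

/-- The pattern of density `4/9`. -/
def Good (x y : ℤ) : Prop :=
  (y % 3 = 0 ∧ ((x + 8 * y) % 9 = 0 ∨ (x + 8 * y) % 9 = 4 ∨ (x + 8 * y) % 9 = 8)) ∨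
  (y % 3 = 1 ∧ ((x + 8 * y) % 9 = 0 ∨ (x + 8 * y) % 9 = 1 ∨ (x + 8 * y) % 9 = 4 ∨
    (x + 8 * y) % 9 = 5)) ∨
  (y % 3 = 2 ∧ ((x + 8 * y) % 9 = 1 ∨ (x + 8 * y) % 9 = 3 ∨ (x + 8 * y) % 9 = 5 ∨
    (x + 8 * y) % 9 = 6 ∨ (x + 8 * y) % 9 = 8))

instance (x y : ℤ) : Decidable (Good x y) := by unfold Good; infer_instance

/-- The six directions. -/
def dirs : List (ℤ × ℤ) := [(1, 0), (-1, 0), (0, 1), (0, -1), (1, -1), (-1, 1)]

lemma good_mod (x y dx dy : ℤ) : Good (x + dx) (y + dy) ↔ Good (x % 9 + dx) (y % 9 + dy) := by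
  have h1 : (y % 9 + dy) % 3 = (y + dy) % 3 := by omega
  have h2 : (x % 9 + dx + 8 * (y % 9 + dy)) % 9 = (x + dx + 8 * (y + dy)) % 9 := by omega
  unfold Good
  rw [h1, h2]

lemma good_per (x y u v : ℤ) : Good (9 * u + x) (9 * v + y) ↔ Good x y := by
  have h1 : (9 * v + y) % 3 = y % 3 := by omega
  have h2 : (9 * u + x + 8 * (9 * v + y)) % 9 = (x + 8 * y) % 9 := by omega
  unfold Good
  rw [h1, h2]

set_option maxRecDepth 100000 in
lemma good_fin : ∀ u v : Fin 9, Good (u : ℕ) (v : ℕ) → ∀ d ∈ dirs,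
    Good ((u : ℕ) + d.1) ((v : ℕ) + d.2) → ∀ e ∈ dirs, Good ((u : ℕ) + e.1) ((v : ℕ) + e.2) →
      d = e ∨ (e.1 - d.1, e.2 - d.2) ∈ dirs := by
  decide

/-- Adjacency by the six directions. -/
lemma triAdj_iff (p q : ℤ × ℤ) : TriAdj p q ↔ (q.1 - p.1, q.2 - p.2) ∈ dirs := by
  obtain ⟨a, b⟩ := p
  obtain ⟨c, d⟩ := q
  simp only [TriAdj, dirs, List.mem_cons, Prod.mk.injEq, List.not_mem_nil, or_false]
  constructor
  · rintro (⟨h1, h2⟩ | ⟨h1, h2⟩ | ⟨h1, h2⟩ | ⟨h1, h2⟩)
    · rcases (abs_eq (by norm_num : (0 : ℤ) ≤ 1)).mp h2 with h | h <;> omega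
    · rcases (abs_eq (by norm_num : (0 : ℤ) ≤ 1)).mp h2 with h | h <;> omega
    · omega
    · omega
  · rintro (⟨h1, h2⟩ | ⟨h1, h2⟩ | ⟨h1, h2⟩ | ⟨h1, h2⟩ | ⟨h1, h2⟩ | ⟨h1, h2⟩)
    · exact Or.inl ⟨by omega, by rw [abs_eq (by norm_num)]; omega⟩
    · exact Or.inl ⟨by omega, by rw [abs_eq (by norm_num)]; omega⟩
    · exact Or.inr (Or.inl ⟨by omega, by rw [abs_eq (by norm_num)]; omega⟩)
    · exact Or.inr (Or.inl ⟨by omega, by rw [abs_eq (by norm_num)]; omega⟩)
    · omega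
    · omega

/-- The pattern contains no induced path on three vertices. -/
lemma good_trans {p q r : ℤ × ℤ} (hp : Good p.1 p.2) (hq : Good q.1 q.2) (hr : Good r.1 r.2)
    (h1 : TriAdj p q) (h2 : TriAdj q r) : p = r ∨ TriAdj p r := by
  have h1' := (triAdj_iff _ _).mp (triAdj_symm h1)
  have h2' := (triAdj_iff _ _).mp h2
  obtain ⟨u, hu⟩ : ∃ u : Fin 9, (((u : Fin 9) : ℕ) : ℤ) = q.1 % 9 :=
    ⟨⟨(q.1 % 9).toNat, by omega⟩, by simp only; omega⟩
  obtain ⟨v, hv⟩ : ∃ v : Fin 9, (((v : Fin 9) : ℕ) : ℤ) = q.2 % 9 :=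
    ⟨⟨(q.2 % 9).toNat, by omega⟩, by simp only; omega⟩
  have e0 : Good (u : ℕ) (v : ℕ) := by
    rw [hu, hv]
    have := (good_mod q.1 q.2 0 0).mp (by simpa using hq)
    simpa using this
  have e1 : Good ((u : ℕ) + (p.1 - q.1, p.2 - q.2).1) ((v : ℕ) + (p.1 - q.1, p.2 - q.2).2) := by
    rw [hu, hv]
    exact (good_mod q.1 q.2 (p.1 - q.1) (p.2 - q.2)).mp (by simpa using hp)
  have e2 : Good ((u : ℕ) + (r.1 - q.1, r.2 - q.2).1) ((v : ℕ) + (r.1 - q.1, r.2 - q.2).2) := by
    rw [hu, hv]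
    exact (good_mod q.1 q.2 (r.1 - q.1) (r.2 - q.2)).mp (by simpa using hr)
  rcases good_fin u v e0 _ h1' e1 _ h2' e2 with h | h
  · left
    simp only [Prod.mk.injEq] at h
    exact Prod.ext (by omega) (by omega)
  · right
    rw [triAdj_iff]
    have h3 : (r.1 - p.1, r.2 - p.2) =
        ((r.1 - q.1, r.2 - q.2).1 - (p.1 - q.1, p.2 - q.2).1,
          (r.1 - q.1, r.2 - q.2).2 - (p.1 - q.1, p.2 - q.2).2) := by
      simp
    rw [h3]
    exact h

/-- The indeque set of `T_n`. -/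
noncomputable def goodSet (n : ℕ) : Finset (verts n) :=
  Finset.univ.filter fun p => Good p.1.1 p.1.2

lemma goodSet_indeque (n : ℕ) : IsIndeque (T n) (goodSet n) := by
  have hg : ∀ u : ((goodSet n : Finset (verts n)) : Set (verts n)), Good u.1.1.1 u.1.1.2 := by
    intro u
    have := u.2
    simpa [goodSet] using this
  have key : ∀ u v : ((goodSet n : Finset (verts n)) : Set (verts n)),
      ((T n).induce ((goodSet n : Finset (verts n)) : Set (verts n))).Walk u v →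
        u = v ∨ (T n).Adj u v := by
    intro u v w
    induction w with
    | nil => exact Or.inl rfl
    | @cons a b c hab _ ih =>
      have hab' : TriAdj a.1.1 b.1.1 := hab
      rcases ih with rfl | hbc
      · exact Or.inr hab'
      · have hbc' : TriAdj b.1.1 c.1.1 := hbc
        rcases good_trans (hg a) (hg b) (hg c) hab' hbc' with h | h
        · exact Or.inl (Subtype.ext (Subtype.ext h))
        · exact Or.inr h
  intro u v huv hne
  obtain ⟨w⟩ := huv
  rcases key u v w with h | h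
  · exact absurd h hne
  · exact h

/-! ### Counting -/

/-- Pairs `(u, v)` with `u + v ≤ M`. -/
def tri (M : ℕ) : Finset (ℕ × ℕ) :=
  (Finset.range (M + 1) ×ˢ Finset.range (M + 1)).filter fun p => p.1 + p.2 ≤ M

lemma mem_tri {M : ℕ} {p : ℕ × ℕ} : p ∈ tri M ↔ p.1 + p.2 ≤ M := by
  simp only [tri, Finset.mem_filter, Finset.mem_product, Finset.mem_range]
  omega

lemma card_tri (M : ℕ) : 2 * (tri M).card = (M + 1) * (M + 2) := by
  induction M with
  | zero => decide
  | succ M ih =>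
    have h : tri (M + 1) = tri M ∪ Finset.HasAntidiagonal.antidiagonal (M + 1) := by
      ext p
      rw [Finset.mem_union, mem_tri, mem_tri, Finset.HasAntidiagonal.mem_antidiagonal]
      omega
    have hd : Disjoint (tri M) (Finset.HasAntidiagonal.antidiagonal (M + 1)) := by
      rw [Finset.disjoint_left]
      intro p h1 h2
      rw [mem_tri] at h1
      rw [Finset.HasAntidiagonal.mem_antidiagonal] at h2
      omega
    rw [h, Finset.card_union_of_disjoint hd, Finset.Nat.card_antidiagonal]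
    nlinarith

lemma mem_verts {n : ℕ} {p : ℤ × ℤ} : p ∈ verts n ↔ 0 ≤ p.1 ∧ 0 ≤ p.2 ∧ p.1 + p.2 ≤ n := by
  simp only [verts, Finset.mem_filter, Finset.mem_product, Finset.mem_Icc]
  omega

lemma card_verts (n : ℕ) : 2 * (verts n).card = (n + 1) * (n + 2) := by
  rw [← card_tri n]
  congr 1
  refine Finset.card_bij (fun p _ => (p.1.toNat, p.2.toNat)) ?_ ?_ ?_
  · intro p hp
    rw [mem_verts] at hp
    rw [mem_tri]
    simp only
    omega
  · intro p hp q hq h
    rw [mem_verts] at hp hq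
    simp only [Prod.mk.injEq] at h
    exact Prod.ext (by omega) (by omega)
  · intro q hq
    rw [mem_tri] at hq
    refine ⟨((q.1 : ℤ), (q.2 : ℤ)), ?_, by simp⟩
    rw [mem_verts]
    simp only
    omega

/-- The good residues. -/
def res : Finset (ℕ × ℕ) :=
  (Finset.range 9 ×ˢ Finset.range 9).filter fun p => Good p.1 p.2

set_option maxRecDepth 100000 in
lemma card_res : res.card = 36 := by decide

lemma card_goodSet (n M : ℕ) (h : 9 * M + 16 ≤ n) :
    18 * ((M + 1) * (M + 2)) ≤ (goodSet n).card := by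
  classical
  have h1 : 18 * ((M + 1) * (M + 2)) = (tri M ×ˢ res).card := by
    rw [Finset.card_product, card_res, ← card_tri]
    ring
  rw [h1]
  have hv : ∀ t ∈ tri M ×ˢ res,
      (((9 * t.1.1 + t.2.1 : ℕ) : ℤ), ((9 * t.1.2 + t.2.2 : ℕ) : ℤ)) ∈ verts n := by
    intro t ht
    rw [Finset.mem_product, mem_tri] at ht
    have h2 : t.2.1 < 9 ∧ t.2.2 < 9 := by
      have := ht.2
      simp only [res, Finset.mem_filter, Finset.mem_product, Finset.mem_range] at this
      exact this.1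
    rw [mem_verts]
    simp only
    omega
  have h0 : ((0 : ℤ), (0 : ℤ)) ∈ verts n := by
    rw [mem_verts]; simp
  refine Finset.card_le_card_of_injOn
    (fun t => if ht : (((9 * t.1.1 + t.2.1 : ℕ) : ℤ), ((9 * t.1.2 + t.2.2 : ℕ) : ℤ)) ∈ verts n then
      ⟨_, ht⟩ else ⟨_, h0⟩) ?_ ?_
  · intro t ht
    have ht' := hv t ht
    have hres : t.2 ∈ res := (Finset.mem_product.mp ht).2
    have hgood : Good (t.2.1 : ℤ) (t.2.2 : ℤ) := by
      simp only [res, Finset.mem_filter] at hres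
      exact hres.2
    simp only [dif_pos ht']
    simp only [goodSet, Finset.coe_filter, Finset.mem_univ, true_and, Set.mem_ofPred_eq]
    push_cast
    exact (good_per _ _ _ _).mpr hgood
  · intro t ht t' ht' htt
    have e1 := hv t ht
    have e2 := hv t' ht'
    simp only [dif_pos e1, dif_pos e2] at htt
    have htt' := congrArg Subtype.val htt
    simp only [Prod.mk.injEq, Nat.cast_inj] at htt'
    have hr : t.2.1 < 9 ∧ t.2.2 < 9 := by
      have := (Finset.mem_product.mp (show t ∈ tri M ×ˢ res from ht)).2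
      simp only [res, Finset.mem_filter, Finset.mem_product, Finset.mem_range] at this
      exact this.1
    have hr' : t'.2.1 < 9 ∧ t'.2.2 < 9 := by
      have := (Finset.mem_product.mp (show t' ∈ tri M ×ˢ res from ht')).2
      simp only [res, Finset.mem_filter, Finset.mem_product, Finset.mem_range] at this
      exact this.1
    refine Prod.ext (Prod.ext ?_ ?_) (Prod.ext ?_ ?_) <;> omega

lemma indequeNumber_ge (n M : ℕ) (h : 9 * M + 16 ≤ n) :
    18 * ((M + 1) * (M + 2)) ≤ indequeNumber (T n) := by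
  refine (card_goodSet n M h).trans ?_
  refine le_csSup ?_ ⟨_, goodSet_indeque n, rfl⟩
  refine ⟨Fintype.card (verts n), ?_⟩
  rintro k ⟨S, _, rfl⟩
  exact Finset.card_le_univ S

/-- The density is asymptotically at least `4/9`. -/
lemma density_ge (ε : ℝ) (hε : 0 < ε) :
    ∀ᶠ n : ℕ in atTop, (4 / 9 - ε) * (Fintype.card (verts n) : ℝ) ≤ indequeNumber (T n) := by
  obtain ⟨K, hK⟩ := exists_nat_gt (50 / ε)
  filter_upwards [eventually_ge_atTop (max 30 K)] with n hn
  have hn30 : 30 ≤ n := le_trans (le_max_left _ _) hn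
  have hnK : K ≤ n := le_trans (le_max_right _ _) hn
  obtain ⟨M, hM1, hM2⟩ : ∃ M, 9 * M + 16 ≤ n ∧ n ≤ 9 * M + 24 :=
    ⟨(n - 16) / 9, by omega, by omega⟩
  have hL := indequeNumber_ge n M hM1
  have hV : 2 * (Fintype.card (verts n) : ℝ) = ((n : ℝ) + 1) * (n + 2) := by
    rw [Fintype.card_coe]
    exact_mod_cast card_verts n
  have hL' : 18 * (((M : ℝ) + 1) * (M + 2)) ≤ (indequeNumber (T n) : ℝ) := by exact_mod_cast hL
  have hM2' : (n : ℝ) ≤ 9 * M + 24 := by exact_mod_cast hM2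
  have hn30' : (30 : ℝ) ≤ n := by exact_mod_cast hn30
  have hnK' : 50 / ε < n := lt_of_lt_of_le hK (by exact_mod_cast hnK)
  have hεn : 50 < ε * n := by
    rw [div_lt_iff₀ hε] at hnK'
    linarith
  have e1 : 2 / 9 * ((n : ℝ) - 15) * (n - 6) ≤ 18 * (((M : ℝ) + 1) * (M + 2)) := by
    have hm : ((n : ℝ) - 24) / 9 ≤ M := by linarith
    have hm0 : (0 : ℝ) ≤ ((n : ℝ) - 24) / 9 := by linarith
    nlinarith
  have e2 : 50 * (n : ℝ) ≤ ε * (n : ℝ) ^ 2 := by nlinarith
  have e3 : ε * (n : ℝ) ^ 2 ≤ 2 * (ε * (Fintype.card (verts n) : ℝ)) := by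
    have : (n : ℝ) ^ 2 ≤ 2 * (Fintype.card (verts n) : ℝ) := by rw [hV]; nlinarith
    nlinarith
  nlinarith

/-- **Disproof.** The triangular grids have indeque sets of size `(4/9 - o(1)) |T_n|`; so the
limit of `αω(T_n) / |T_n|` is not `2/5`. -/
theorem result :
    (∀ ε : ℝ, 0 < ε →
      ∀ᶠ n : ℕ in atTop, (4 / 9 - ε) * (Fintype.card (verts n) : ℝ) ≤ indequeNumber (T n)) ∧
    (∃ ε : ℝ, 0 < ε ∧
      ∀ᶠ n : ℕ in atTop, (2 / 5 + ε) * (Fintype.card (verts n) : ℝ) ≤ indequeNumber (T n)) ∧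
    ¬ Tendsto (fun n : ℕ => (indequeNumber (T n) : ℝ) / (Fintype.card (verts n) : ℝ))
      atTop (𝓝 (2 / 5)) := by
  refine ⟨density_ge, ⟨1 / 45 , by norm_num, ?_⟩, ?_⟩
  · have := density_ge (1 / 45) (by norm_num)
    norm_num at this ⊢
    exact this
  · intro h
    have h1 : ∀ᶠ n : ℕ in atTop,
        (indequeNumber (T n) : ℝ) / (Fintype.card (verts n) : ℝ) < 0.41 :=
      h.eventually_lt_const (by norm_num)
    obtain ⟨n, hn1, hn2⟩ := (h1.and (density_ge 0.01 (by norm_num))).exists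
    have hp : (0 : ℝ) < Fintype.card (verts n) := by
      have := card_verts n
      rw [Fintype.card_coe]
      have h2 : 0 < (verts n).card := by
        rcases Nat.eq_zero_or_pos (verts n).card with h0 | h0
        · rw [h0] at this
          simp at this
        · exact h0
      exact_mod_cast h2
    rw [div_lt_iff₀ hp] at hn1
    norm_num at hn1 hn2
    nlinarith

end Pool.Agent.Results.MP_d2ef9c_co.Density
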